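import Mathlib

/-!
# Strong colourings of star products of Fano planes (MP_cb5629_co)

A symmetric configuration `v_3` has `χ_w = 3` exactly when it has no blocking set.  The known
configurations without blocking set are built from the Fano plane by star products.  We prove that
none of them has a strong colouring with `5` colours, and that no configuration containing one of
them with one point deleted has one.
-/

namespace Pool.Agent.Results.MP_cb5629_co.StarProducts

/-- An incidence structure: points, lines, incidence. -/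
structure Conf where
  /-- the points -/
  P : Type
  /-- the lines -/
  L : Type
  /-- incidence -/
  inc : P → L → Prop

/-- A strong colouring with `k` colours: distinct points on a line get distinct colours. -/
def Strong (C : Conf) (k : ℕ) : Prop :=
  ∃ c : C.P → Fin k, ∀ m a b, C.inc a m → C.inc b m → a ≠ b → c a ≠ c b

/-- A weak colouring with `k` colours: no line has all its points in one colour. -/
def Weak (C : Conf) (k : ℕ) : Prop :=
  ∃ c : C.P → Fin k, ∀ m, ∃ a b, C.inc a m ∧ C.inc b m ∧ c a ≠ c b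

/-- Symmetric configurations `v_3`: finitely many points, three points on each line, three lines
through each point, two distinct points are on at most one common line. -/
def IsV3 (C : Conf) : Prop :=
  Finite C.P ∧ (∀ m, Nat.card {a // C.inc a m} = 3) ∧ (∀ a, Nat.card {m // C.inc a m} = 3) ∧
    ∀ a b m n, a ≠ b → C.inc a m → C.inc b m → C.inc a n → C.inc b n → m = n

/-- The star product of `C₁` at the point `p` and `C₂` at the line `ℓ`: delete `p` and `ℓ`, and
put the point `θ m` of `ℓ` on the line `m` through `p`, where `θ` is a bijection from the lines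
through `p` to the points on `ℓ`.  (In terms of incidence graphs: delete `p` from the first and
`ℓ` from the second graph and join their neighbours by a perfect matching.) -/
def star (C₁ : Conf) (p : C₁.P) (C₂ : Conf) (l : C₂.L)
    (θ : {m : C₁.L // C₁.inc p m} ≃ {a : C₂.P // C₂.inc a l}) : Conf where
  P := {q : C₁.P // q ≠ p} ⊕ C₂.P
  L := C₁.L ⊕ {m : C₂.L // m ≠ l}
  inc x y := match x, y with
    | .inl q, .inl m => C₁.inc q.1 m
    | .inr a, .inl m => ∃ h : C₁.inc p m, (θ ⟨m, h⟩).1 = a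
    | .inl _, .inr _ => False
    | .inr a, .inr m => C₂.inc a m.1

/-- The Fano plane: points and lines are the integers mod `7`, the line `m` consists of the
points `m`, `m + 1`, `m + 3`. -/
def fano : Conf where
  P := ZMod 7
  L := ZMod 7
  inc a m := a = m ∨ a = m + 1 ∨ a = m + 3

/-- The configurations obtained from Fano planes by repeated star products (up to
isomorphism). -/
inductive FanoTree : Conf → Prop
  | fano : FanoTree fano
  | star (C₁ C₂ : Conf) (h₁ : FanoTree C₁) (h₂ : FanoTree C₂) (p : C₁.P) (l : C₂.L)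
      (θ : {m : C₁.L // C₁.inc p m} ≃ {a : C₂.P // C₂.inc a l}) :
      FanoTree (star C₁ p C₂ l θ)
  | iso (C C' : Conf) (h : FanoTree C) (f : C.P ≃ C'.P) (g : C.L ≃ C'.L)
      (hfg : ∀ a m, C.inc a m ↔ C'.inc (f a) (g m)) : FanoTree C'

/-- With one point deleted there is no strong colouring with `5` colours. -/
def NoPt (C : Conf) : Prop := ∀ (p : C.P) (c : C.P → Fin 5),
  ¬ ∀ m a b, a ≠ p → b ≠ p → C.inc a m → C.inc b m → a ≠ b → c a ≠ c b

/-- With one line deleted, every strong colouring with `5` colours is constant on that line. -/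
def SameLn (C : Conf) : Prop := ∀ (l : C.L) (c : C.P → Fin 5),
  (∀ m, m ≠ l → ∀ a b, C.inc a m → C.inc b m → a ≠ b → c a ≠ c b) →
    ∀ a b, C.inc a l → C.inc b l → c a = c b

/-- The colouring of `C₁` obtained from one of the star product and a colour `z` for `p`. -/
noncomputable def pull {α : Type} {C₁ : Conf} {p : C₁.P} {C₂ : Conf}
    (c : {q : C₁.P // q ≠ p} ⊕ C₂.P → α) (z : α) (q : C₁.P) : α :=
  open Classical in if h : q ≠ p then c (.inl ⟨q, h⟩) else z

theorem pull_self {α : Type} {C₁ : Conf} {p : C₁.P} {C₂ : Conf}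
    (c : {q : C₁.P // q ≠ p} ⊕ C₂.P → α) (z : α) : pull c z p = z := by
  simp [pull]

theorem pull_ne {α : Type} {C₁ : Conf} {p : C₁.P} {C₂ : Conf}
    (c : {q : C₁.P // q ≠ p} ⊕ C₂.P → α) (z : α) (q : C₁.P) (h : q ≠ p) :
    pull c z q = c (.inl ⟨q, h⟩) := by
  simp [pull, h]

theorem exists_colour {α : Type} [Inhabited α] {C₂ : Conf} {l : C₂.L} (c : C₂.P → α)
    (h : ∀ a b, C₂.inc a l → C₂.inc b l → c a = c b) : ∃ z, ∀ a, C₂.inc a l → c a = z := by
  by_cases hx : ∃ a, C₂.inc a l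
  · obtain ⟨a, ha⟩ := hx
    exact ⟨c a, fun b hb => h b a hb ha⟩
  · exact ⟨default, fun a ha => absurd ⟨a, ha⟩ hx⟩

section star

variable {C₁ : Conf} {p : C₁.P} {C₂ : Conf} {l : C₂.L}
  {θ : {m : C₁.L // C₁.inc p m} ≃ {a : C₂.P // C₂.inc a l}}

theorem no_of_first (h₁ : NoPt C₁) (c : {q : C₁.P // q ≠ p} ⊕ C₂.P → Fin 5)
    (hc : ∀ m : C₁.L, ∀ a b : {q : C₁.P // q ≠ p}, C₁.inc a.1 m → C₁.inc b.1 m → a ≠ b →
      c (.inl a) ≠ c (.inl b)) : False := by
  refine h₁ p (pull c 0) ?_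
  intro m a b ha hb ham hbm hab
  rw [pull_ne c 0 a ha, pull_ne c 0 b hb]
  exact hc m ⟨a, ha⟩ ⟨b, hb⟩ ham hbm (fun h => hab (congrArg Subtype.val h))

theorem noPt_star (h₁ : NoPt C₁) (h₂ : SameLn C₂) : NoPt (star C₁ p C₂ l θ) := by
  intro x c hc
  obtain ⟨c, rfl⟩ : ∃ c' : {q : C₁.P // q ≠ p} ⊕ C₂.P → Fin 5, c' = c := ⟨c, rfl⟩
  rcases x with q₀ | a₀
  · -- the deleted point is in the first part
    have h2 : ∀ a b, C₂.inc a l → C₂.inc b l → c (.inr a) = c (.inr b) := by
      apply h₂ l (fun a => c (.inr a))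
      intro m hm a b ha hb hab
      exact hc (.inr ⟨m, hm⟩) (.inr a) (.inr b) Sum.inr_ne_inl Sum.inr_ne_inl ha hb
        (fun h => hab (Sum.inr.inj h))
    obtain ⟨z, hz⟩ := exists_colour (fun a => c (.inr a)) h2
    refine h₁ q₀.1 (pull c z) ?_
    intro m a b ha hb ham hbm hab
    by_cases hap : a = p
    · subst hap
      have hba : b ≠ a := fun h => hab h.symm
      rw [pull_self, pull_ne c z b hba, ← hz (θ ⟨m, ham⟩).1 (θ ⟨m, ham⟩).2]
      exact hc (.inl m) (.inr (θ ⟨m, ham⟩).1) (.inl ⟨b, hba⟩) Sum.inr_ne_inl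
        (fun h => hb (congrArg Subtype.val (Sum.inl.inj h))) ⟨ham, rfl⟩ hbm Sum.inr_ne_inl
    · by_cases hbp : b = p
      · subst hbp
        rw [pull_self, pull_ne c z a hap, ← hz (θ ⟨m, hbm⟩).1 (θ ⟨m, hbm⟩).2]
        exact hc (.inl m) (.inl ⟨a, hap⟩) (.inr (θ ⟨m, hbm⟩).1)
          (fun h => ha (congrArg Subtype.val (Sum.inl.inj h))) Sum.inr_ne_inl ham ⟨hbm, rfl⟩
          Sum.inl_ne_inr
      · rw [pull_ne c z a hap, pull_ne c z b hbp]
        exact hc (.inl m) (.inl ⟨a, hap⟩) (.inl ⟨b, hbp⟩)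
          (fun h => ha (congrArg Subtype.val (Sum.inl.inj h)))
          (fun h => hb (congrArg Subtype.val (Sum.inl.inj h))) ham hbm
          (fun h => hab (congrArg Subtype.val (Sum.inl.inj h)))
  · -- the deleted point is in the second part
    apply no_of_first h₁ c
    intro m a b ham hbm hab
    exact hc (.inl m) (.inl a) (.inl b) Sum.inl_ne_inr Sum.inl_ne_inr ham hbm
      (fun h => hab (Sum.inl.inj h))

theorem sameLn_star (h₁ : NoPt C₁) (h₁' : SameLn C₁) (h₂ : SameLn C₂) :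
    SameLn (star C₁ p C₂ l θ) := by
  intro y c hc
  obtain ⟨c, rfl⟩ : ∃ c' : {q : C₁.P // q ≠ p} ⊕ C₂.P → Fin 5, c' = c := ⟨c, rfl⟩
  rcases y with m₀ | m₀
  · -- the deleted line is in the first part
    have h2 : ∀ a b, C₂.inc a l → C₂.inc b l → c (.inr a) = c (.inr b) := by
      apply h₂ l (fun a => c (.inr a))
      intro m hm a b ha hb hab
      exact hc (.inr ⟨m, hm⟩) Sum.inr_ne_inl (.inr a) (.inr b) ha hb (fun h => hab (Sum.inr.inj h))
    obtain ⟨z, hz⟩ := exists_colour (fun a => c (.inr a)) h2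
    have h1 : ∀ a b, C₁.inc a m₀ → C₁.inc b m₀ → pull c z a = pull c z b := by
      apply h₁' m₀ (pull c z)
      intro m hm a b ham hbm hab
      by_cases hap : a = p
      · subst hap
        have hba : b ≠ a := fun h => hab h.symm
        rw [pull_self, pull_ne c z b hba, ← hz (θ ⟨m, ham⟩).1 (θ ⟨m, ham⟩).2]
        exact hc (.inl m) (fun h => hm (Sum.inl.inj h)) (.inr (θ ⟨m, ham⟩).1) (.inl ⟨b, hba⟩)
          ⟨ham, rfl⟩ hbm Sum.inr_ne_inl
      · by_cases hbp : b = p
        · subst hbp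
          rw [pull_self, pull_ne c z a hap, ← hz (θ ⟨m, hbm⟩).1 (θ ⟨m, hbm⟩).2]
          exact hc (.inl m) (fun h => hm (Sum.inl.inj h)) (.inl ⟨a, hap⟩)
            (.inr (θ ⟨m, hbm⟩).1) ham ⟨hbm, rfl⟩ Sum.inl_ne_inr
        · rw [pull_ne c z a hap, pull_ne c z b hbp]
          exact hc (.inl m) (fun h => hm (Sum.inl.inj h)) (.inl ⟨a, hap⟩) (.inl ⟨b, hbp⟩) ham hbm
            (fun h => hab (congrArg Subtype.val (Sum.inl.inj h)))
    have key : ∀ X, (star C₁ p C₂ l θ).inc X (.inl m₀) →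
        ∃ q, C₁.inc q m₀ ∧ c X = pull c z q := by
      intro X hX
      rcases X with q | a
      · exact ⟨q.1, hX, (pull_ne c z q.1 q.2).symm⟩
      · obtain ⟨h, rfl⟩ := hX
        exact ⟨p, h, by rw [pull_self]; exact hz _ (θ ⟨m₀, h⟩).2⟩
    intro X Y hX hY
    obtain ⟨q, hq, hXq⟩ := key X hX
    obtain ⟨r, hr, hYr⟩ := key Y hY
    rw [hXq, hYr]
    exact h1 q r hq hr
  · -- the deleted line is in the second part
    exfalso
    apply no_of_first h₁ c
    intro m a b ham hbm hab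
    exact hc (.inl m) Sum.inl_ne_inr (.inl a) (.inl b) ham hbm (fun h => hab (Sum.inl.inj h))

theorem weak_star (h₁ : ¬ Weak C₁ 2) (h₂ : ¬ Weak C₂ 2) : ¬ Weak (star C₁ p C₂ l θ) 2 := by
  rintro ⟨c, hc⟩
  obtain ⟨c, rfl⟩ : ∃ c' : {q : C₁.P // q ≠ p} ⊕ C₂.P → Fin 2, c' = c := ⟨c, rfl⟩
  by_cases h : ∀ a b, C₂.inc a l → C₂.inc b l → c (.inr a) = c (.inr b)
  · obtain ⟨z, hz⟩ := exists_colour (fun a => c (.inr a)) h
    apply h₁
    refine ⟨pull c z, fun m => ?_⟩
    have key : ∀ X, (star C₁ p C₂ l θ).inc X (.inl m) →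
        ∃ q, C₁.inc q m ∧ c X = pull c z q := by
      intro X hX
      rcases X with q | a
      · exact ⟨q.1, hX, (pull_ne c z q.1 q.2).symm⟩
      · obtain ⟨h, rfl⟩ := hX
        exact ⟨p, h, by rw [pull_self]; exact hz _ (θ ⟨m, h⟩).2⟩
    obtain ⟨X, Y, hX, hY, hXY⟩ := hc (.inl m)
    obtain ⟨q, hq, hXq⟩ := key X hX
    obtain ⟨r, hr, hYr⟩ := key Y hY
    exact ⟨q, r, hq, hr, by rw [← hXq, ← hYr]; exact hXY⟩
  · push Not at h
    obtain ⟨a₀, b₀, ha₀, hb₀, hab₀⟩ := h
    apply h₂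
    refine ⟨fun a => c (.inr a), fun m => ?_⟩
    by_cases hm : m = l
    · subst hm
      exact ⟨a₀, b₀, ha₀, hb₀, hab₀⟩
    · obtain ⟨X, Y, hX, hY, hXY⟩ := hc (.inr ⟨m, hm⟩)
      rcases X with q | a
      · exact hX.elim
      · rcases Y with r | b
        · exact hY.elim
        · exact ⟨a, b, hX, hY, hXY⟩

theorem isV3_star (h₁ : IsV3 C₁) (h₂ : IsV3 C₂) : IsV3 (star C₁ p C₂ l θ) := by
  obtain ⟨f1, l1, p1, n1⟩ := h₁
  obtain ⟨f2, l2, p2, n2⟩ := h₂
  refine ⟨?_, ?_, ?_, ?_⟩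
  · change Finite ({q : C₁.P // q ≠ p} ⊕ C₂.P)
    infer_instance
  · intro y
    rcases y with m | m
    · rw [← l1 m]
      refine Nat.card_eq_of_bijective
        (fun X : {X : {q : C₁.P // q ≠ p} ⊕ C₂.P // (star C₁ p C₂ l θ).inc X (.inl m)} =>
          (match X with
            | ⟨.inl q, h⟩ => ⟨q.1, h⟩
            | ⟨.inr _, h⟩ => ⟨p, h.1⟩ : {a // C₁.inc a m})) ⟨?_, ?_⟩
      · rintro ⟨q | a, hX⟩ ⟨r | b, hY⟩ h
        · have e := congrArg Subtype.val h
          have : q = r := Subtype.ext e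
          subst this; rfl
        · exact absurd (congrArg Subtype.val h) q.2
        · exact absurd (congrArg Subtype.val h).symm r.2
        · obtain ⟨h1, e1⟩ := hX
          obtain ⟨h2, e2⟩ := hY
          have : a = b := by rw [← e1, ← e2]
          subst this; rfl
      · rintro ⟨q, hq⟩
        by_cases hqp : q = p
        · subst hqp
          exact ⟨⟨.inr (θ ⟨m, hq⟩).1, ⟨hq, rfl⟩⟩, rfl⟩
        · exact ⟨⟨.inl ⟨q, hqp⟩, hq⟩, rfl⟩
    · rw [← l2 m.1]
      refine Nat.card_eq_of_bijective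
        (fun X : {X : {q : C₁.P // q ≠ p} ⊕ C₂.P // (star C₁ p C₂ l θ).inc X (.inr m)} =>
          (match X with
            | ⟨.inl _, h⟩ => h.elim
            | ⟨.inr a, h⟩ => ⟨a, h⟩ : {a // C₂.inc a m.1})) ⟨?_, ?_⟩
      · rintro ⟨q | a, hX⟩ ⟨r | b, hY⟩ h
        · exact hX.elim
        · exact hX.elim
        · exact hY.elim
        · have : a = b := congrArg Subtype.val h
          subst this; rfl
      · rintro ⟨a, ha⟩
        exact ⟨⟨.inr a, ha⟩, rfl⟩
  · intro x
    rcases x with q | a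
    · rw [← p1 q.1]
      refine Nat.card_eq_of_bijective
        (fun X : {X : C₁.L ⊕ {m : C₂.L // m ≠ l} // (star C₁ p C₂ l θ).inc (.inl q) X} =>
          (match X with
            | ⟨.inl m, h⟩ => ⟨m, h⟩
            | ⟨.inr _, h⟩ => h.elim : {m // C₁.inc q.1 m})) ⟨?_, ?_⟩
      · rintro ⟨m | m, hX⟩ ⟨n | n, hY⟩ h
        · have : m = n := congrArg Subtype.val h
          subst this; rfl
        · exact hY.elim
        · exact hX.elim
        · exact hX.elim
      · rintro ⟨m, hm⟩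
        exact ⟨⟨.inl m, hm⟩, rfl⟩
    · rw [← p2 a]
      have hin : ∀ m : C₁.L, (star C₁ p C₂ l θ).inc (.inr a) (.inl m) → C₂.inc a l := by
        rintro m ⟨h, rfl⟩
        exact (θ ⟨m, h⟩).2
      refine Nat.card_eq_of_bijective
        (fun X : {X : C₁.L ⊕ {m : C₂.L // m ≠ l} // (star C₁ p C₂ l θ).inc (.inr a) X} =>
          (match X with
            | ⟨.inl m, h⟩ => ⟨l, hin m h⟩
            | ⟨.inr m, h⟩ => ⟨m.1, h⟩ : {m // C₂.inc a m})) ⟨?_, ?_⟩
      · rintro ⟨m | m, hX⟩ ⟨n | n, hY⟩ h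
        · obtain ⟨h1, e1⟩ := hX
          obtain ⟨h2, e2⟩ := hY
          have : (⟨m, h1⟩ : {m : C₁.L // C₁.inc p m}) = ⟨n, h2⟩ :=
            θ.injective (Subtype.ext (e1.trans e2.symm))
          have : m = n := congrArg Subtype.val this
          subst this; rfl
        · exact absurd (congrArg Subtype.val h).symm n.2
        · exact absurd (congrArg Subtype.val h) m.2
        · have e := congrArg Subtype.val h
          have : m = n := Subtype.ext e
          subst this; rfl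
      · rintro ⟨m, hm⟩
        by_cases hml : m = l
        · subst hml
          refine ⟨⟨.inl (θ.symm ⟨a, hm⟩).1, ⟨(θ.symm ⟨a, hm⟩).2, ?_⟩⟩, rfl⟩
          simp
        · exact ⟨⟨.inr ⟨m, hml⟩, hm⟩, rfl⟩
  · intro x y m n hxy hxm hym hxn hyn
    rcases m with m | m <;> rcases n with n | n
    · rcases x with q | a <;> rcases y with r | b
      · exact congrArg Sum.inl (n1 q.1 r.1 m n
          (fun h => hxy (congrArg Sum.inl (Subtype.ext h))) hxm hym hxn hyn)
      · exact congrArg Sum.inl (n1 q.1 p m n q.2 hxm hym.1 hxn hyn.1)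
      · exact congrArg Sum.inl (n1 p r.1 m n r.2.symm hxm.1 hym hxn.1 hyn)
      · obtain ⟨h1, e1⟩ := hxm
        obtain ⟨h2, e2⟩ := hym
        exact absurd (congrArg Sum.inr (e1.symm.trans e2)) hxy
    · rcases x with q | a
      · exact hxn.elim
      · rcases y with r | b
        · exact hyn.elim
        · obtain ⟨h1, e1⟩ := hxm
          obtain ⟨h2, e2⟩ := hym
          exact absurd (congrArg Sum.inr (e1.symm.trans e2)) hxy
    · rcases x with q | a
      · exact hxm.elim
      · rcases y with r | b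
        · exact hym.elim
        · obtain ⟨h1, e1⟩ := hxn
          obtain ⟨h2, e2⟩ := hyn
          exact absurd (congrArg Sum.inr (e1.symm.trans e2)) hxy
    · rcases x with q | a
      · exact hxm.elim
      · rcases y with r | b
        · exact hym.elim
        · exact congrArg Sum.inr (Subtype.ext (n2 a b m.1 n.1
            (fun h => hxy (congrArg Sum.inr h)) hxm hym hxn hyn))

end star

theorem isV3_fano : IsV3 fano := by
  refine ⟨inferInstanceAs (Finite (ZMod 7)), ?_, ?_, ?_⟩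
  · intro m
    obtain ⟨m, rfl⟩ : ∃ m' : ZMod 7, m' = m := ⟨m, rfl⟩
    have h : ∀ m : ZMod 7,
        Fintype.card {a : ZMod 7 // a = m ∨ a = m + 1 ∨ a = m + 3} = 3 := by decide
    have := h m
    rw [← Nat.card_eq_fintype_card] at this
    exact this
  · intro a
    obtain ⟨a, rfl⟩ : ∃ a' : ZMod 7, a' = a := ⟨a, rfl⟩
    have h : ∀ a : ZMod 7,
        Fintype.card {m : ZMod 7 // a = m ∨ a = m + 1 ∨ a = m + 3} = 3 := by decide
    have := h a
    rw [← Nat.card_eq_fintype_card] at this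
    exact this
  · have h : ∀ a b m n : ZMod 7, a ≠ b → (a = m ∨ a = m + 1 ∨ a = m + 3) →
        (b = m ∨ b = m + 1 ∨ b = m + 3) → (a = n ∨ a = n + 1 ∨ a = n + 3) →
        (b = n ∨ b = n + 1 ∨ b = n + 3) → m = n := by decide +kernel
    exact h

theorem noPt_fano : NoPt fano := by
  intro p c hc
  obtain ⟨p, rfl⟩ : ∃ p' : ZMod 7, p' = p := ⟨p, rfl⟩
  obtain ⟨c, rfl⟩ : ∃ c' : ZMod 7 → Fin 5, c' = c := ⟨c, rfl⟩
  have h1 : ∀ p : ZMod 7, 5 < (Finset.univ.filter (fun q : ZMod 7 => q ≠ p)).card := by decide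
  have h2 : ∀ a b : ZMod 7, a ≠ b → ∃ m : ZMod 7, (a = m ∨ a = m + 1 ∨ a = m + 3) ∧
      (b = m ∨ b = m + 1 ∨ b = m + 3) := by decide
  obtain ⟨a, ha, b, hb, hab, hcab⟩ := Finset.exists_ne_map_eq_of_card_lt_of_maps_to
    (s := Finset.univ.filter (fun q : ZMod 7 => q ≠ p)) (t := (Finset.univ : Finset (Fin 5)))
    (f := c) (by simpa using h1 p) (fun x _ => Finset.mem_univ _)
  rw [Finset.mem_filter] at ha hb
  obtain ⟨m, hm1, hm2⟩ := h2 a b hab
  exact hc m a b ha.2 hb.2 hm1 hm2 hab hcab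

theorem sameLn_fano : SameLn fano := by
  intro l c hc a b ha hb
  obtain ⟨l, rfl⟩ : ∃ l' : ZMod 7, l' = l := ⟨l, rfl⟩
  obtain ⟨a, rfl⟩ : ∃ a' : ZMod 7, a' = a := ⟨a, rfl⟩
  obtain ⟨b, rfl⟩ : ∃ b' : ZMod 7, b' = b := ⟨b, rfl⟩
  obtain ⟨c, rfl⟩ : ∃ c' : ZMod 7 → Fin 5, c' = c := ⟨c, rfl⟩
  by_contra hne
  have hab : a ≠ b := fun h => hne (by rw [h])
  have h1 : ∀ l a b : ZMod 7, (a = l ∨ a = l + 1 ∨ a = l + 3) →
      (b = l ∨ b = l + 1 ∨ b = l + 3) → a ≠ b →
      5 < (Finset.univ.filter (fun q : ZMod 7 =>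
        ¬ (q = l ∨ q = l + 1 ∨ q = l + 3) ∨ q = a ∨ q = b)).card := by decide
  have h2 : ∀ l x y : ZMod 7, x ≠ y → ¬ (y = l ∨ y = l + 1 ∨ y = l + 3) →
      ∃ m : ZMod 7, m ≠ l ∧ (x = m ∨ x = m + 1 ∨ x = m + 3) ∧
      (y = m ∨ y = m + 1 ∨ y = m + 3) := by decide
  obtain ⟨x, hx, y, hy, hxy, hcxy⟩ := Finset.exists_ne_map_eq_of_card_lt_of_maps_to
    (s := Finset.univ.filter (fun q : ZMod 7 =>
        ¬ (q = l ∨ q = l + 1 ∨ q = l + 3) ∨ q = a ∨ q = b))
    (t := (Finset.univ : Finset (Fin 5)))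
    (f := c) (by simpa using h1 l a b ha hb hab) (fun x _ => Finset.mem_univ _)
  rw [Finset.mem_filter] at hx hy
  rcases hy.2 with hy2 | hy2
  · obtain ⟨m, hm, hm1, hm2⟩ := h2 l x y hxy hy2
    exact hc m hm x y hm1 hm2 hxy hcxy
  · rcases hx.2 with hx2 | hx2
    · obtain ⟨m, hm, hm1, hm2⟩ := h2 l y x (Ne.symm hxy) hx2
      exact hc m hm y x hm1 hm2 (Ne.symm hxy) hcxy.symm
    · rcases hx2 with rfl | rfl <;> rcases hy2 with rfl | rfl
      · exact hxy rfl
      · exact hne hcxy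
      · exact hne hcxy.symm
      · exact hxy rfl

theorem weak_fano : ¬ Weak fano 2 := by
  rintro ⟨c, hc⟩
  have h : ∀ c : ZMod 7 → Fin 2, ∃ m : ZMod 7, ∀ a b : ZMod 7,
      (a = m ∨ a = m + 1 ∨ a = m + 3) → (b = m ∨ b = m + 1 ∨ b = m + 3) → c a = c b := by
    decide +kernel
  obtain ⟨m, hm⟩ := h c
  obtain ⟨a, b, ha, hb, hab⟩ := hc m
  exact hab (hm a b ha hb)

theorem isV3_of_fanoTree {C : Conf} (h : FanoTree C) : IsV3 C := by
  induction h with
  | fano => exact isV3_fano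
  | star C₁ C₂ _ _ p l θ ih₁ ih₂ => exact isV3_star ih₁ ih₂
  | iso C C' _ f g hfg ih =>
    obtain ⟨h1, h2, h3, h4⟩ := ih
    refine ⟨Finite.of_equiv _ f, ?_, ?_, ?_⟩
    · intro m
      rw [← h2 (g.symm m)]
      exact (Nat.card_congr (f.subtypeEquiv (fun a => by rw [hfg]; simp))).symm
    · intro a
      rw [← h3 (f.symm a)]
      exact (Nat.card_congr (g.subtypeEquiv (fun m => by rw [hfg]; simp))).symm
    · intro a b m n hab ham hbm han hbn
      apply g.symm.injective
      refine h4 (f.symm a) (f.symm b) _ _ (fun h => hab (f.symm.injective h)) ?_ ?_ ?_ ?_ <;>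
        · rw [hfg]; simpa

theorem fanoTree_nonempty {C : Conf} (h : FanoTree C) : Nonempty C.P := by
  induction h with
  | fano => exact ⟨(0 : ZMod 7)⟩
  | star C₁ C₂ _ _ p l θ _ ih₂ => exact ih₂.map Sum.inr
  | iso C C' _ f g hfg ih => exact ih.map f

theorem fanoTree_props {C : Conf} (h : FanoTree C) : NoPt C ∧ SameLn C ∧ ¬ Weak C 2 := by
  induction h with
  | fano => exact ⟨noPt_fano, sameLn_fano, weak_fano⟩
  | star C₁ C₂ _ _ p l θ ih₁ ih₂ =>
    exact ⟨noPt_star ih₁.1 ih₂.2.1, sameLn_star ih₁.1 ih₁.2.1 ih₂.2.1,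
      weak_star ih₁.2.2 ih₂.2.2⟩
  | iso C C' _ f g hfg ih =>
    refine ⟨?_, ?_, ?_⟩
    · intro p c hc
      refine ih.1 (f.symm p) (fun q => c (f q)) ?_
      intro m a b ha hb ham hbm hab
      exact hc (g m) (f a) (f b) (fun h => ha (by rw [← h]; simp)) (fun h => hb (by rw [← h]; simp))
        ((hfg a m).1 ham) ((hfg b m).1 hbm) (fun h => hab (f.injective h))
    · intro l c hc a b ha hb
      have := ih.2.1 (g.symm l) (fun q => c (f q)) ?_ (f.symm a) (f.symm b) ?_ ?_
      · simpa using this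
      · intro m hm x y hx hy hxy
        exact hc (g m) (fun h => hm (by rw [← h]; simp)) (f x) (f y) ((hfg x m).1 hx)
          ((hfg y m).1 hy) (fun h => hxy (f.injective h))
      · rw [hfg]; simpa using ha
      · rw [hfg]; simpa using hb
    · rintro ⟨c, hc⟩
      apply ih.2.2
      refine ⟨fun q => c (f q), fun m => ?_⟩
      obtain ⟨a, b, ha, hb, hab⟩ := hc (g m)
      exact ⟨f.symm a, f.symm b, by rw [hfg]; simpa using ha, by rw [hfg]; simpa using hb,
        by simpa using hab⟩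

/-- `C` contains the configuration `D` with the point `x` deleted: an injection of the points of
`D` other than `x` into the points of `C` which maps collinear points to collinear points. -/
def ContainsDeleted (C D : Conf) (x : D.P) : Prop :=
  ∃ f : {q : D.P // q ≠ x} → C.P, Function.Injective f ∧
    ∀ (q r : {q : D.P // q ≠ x}) (m : D.L), D.inc q.1 m → D.inc r.1 m →
      ∃ m' : C.L, C.inc (f q) m' ∧ C.inc (f r) m'

/-- **Configurations built from Fano planes by star products are symmetric configurations `v_3`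
with `χ_w > 2` and `χ_s > 5`**, and every configuration that contains one of them with one point
deleted has `χ_s > 5`.  Hence, if every `v_3` with `χ_w > 2` contains one of them with one point
deleted (a consequence of McCuaig's theorem, not proved here), then no `v_3` with `χ_w > 2` has
`χ_s ≤ 5`. -/
theorem result :
    (∀ C : Conf, FanoTree C → IsV3 C ∧ ¬ Weak C 2 ∧ ¬ Strong C 5) ∧
    (∀ (C D : Conf) (x : D.P), FanoTree D → ContainsDeleted C D x → ¬ Strong C 5) ∧
    ((∀ C : Conf, IsV3 C → ¬ Weak C 2 → ∃ (D : Conf) (x : D.P), FanoTree D ∧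
        ContainsDeleted C D x) →
      ∀ C : Conf, IsV3 C → ¬ Weak C 2 → ¬ Strong C 5) := by
  have second : ∀ (C D : Conf) (x : D.P), FanoTree D → ContainsDeleted C D x →
      ¬ Strong C 5 := by
    rintro C D x hD ⟨f, hf, hcol⟩ ⟨c, hc⟩
    refine (fanoTree_props hD).1 x
      (fun q => open Classical in if h : q ≠ x then c (f ⟨q, h⟩) else 0) ?_
    intro m a b ha hb ham hbm hab
    obtain ⟨m', h1, h2⟩ := hcol ⟨a, ha⟩ ⟨b, hb⟩ m ham hbm
    simp only [ne_eq, ha, not_false_eq_true, hb, ↓reduceDIte]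
    exact hc m' _ _ h1 h2 (fun h => hab (congrArg Subtype.val (hf h)))
  refine ⟨fun C hC => ⟨isV3_of_fanoTree hC, (fanoTree_props hC).2.2, ?_⟩, second,
    fun H C h3 hw => ?_⟩
  swap
  · obtain ⟨D, x, hD, hx⟩ := H C h3 hw
    exact second C D x hD hx
  rintro ⟨c, hc⟩
  obtain ⟨x⟩ := fanoTree_nonempty hC
  exact (fanoTree_props hC).1 x c (fun m a b _ _ ham hbm hab => hc m a b ham hbm hab)

end Pool.Agent.Results.MP_cb5629_co.StarProducts
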